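import Pool.Agent.TH317.CC.Alg

/-!
# CC-A4b: the bracket of rotation invariant functions vanishes on `p`-th powers
-/

set_option autoImplicit false

namespace Pool.Agent.TH317.CC

open Finset

namespace H798

section

variable {D R : Type*} [Inhabited D]

/-- the letters of the periodic word with period `u` -/
def g (u : List D) (k : ℤ) : D := u.getD (k % (u.length : ℤ)).toNat default

/-- `n` letters of the periodic word, starting at the position `x` -/
def A (u : List D) (x : ℤ) (n : ℕ) : List D := (List.range n).map fun t : ℕ => g u (x + (t : ℤ))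

variable (u : List D)

theorem g_mul (k c : ℤ) : g u (k + c * u.length) = g u k := by
  unfold g
  rw [Int.add_mul_emod_self_right]

theorem g_len (k : ℤ) : g u (k + u.length) = g u k := by
  have := g_mul u k 1
  rwa [one_mul] at this

theorem A_mul (x c : ℤ) (n : ℕ) : A u (x + c * u.length) n = A u x n := by
  unfold A
  refine List.map_congr_left fun t _ => ?_
  rw [show x + c * u.length + (t : ℤ) = (x + t) + c * u.length by ring, g_mul]

@[simp] theorem A_zero (x : ℤ) : A u x 0 = [] := rfl

@[simp] theorem A_length (x : ℤ) (n : ℕ) : (A u x n).length = n := by simp [A]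

theorem A_cons (x : ℤ) (n : ℕ) : A u x (n + 1) = g u x :: A u (x + 1) n := by
  unfold A
  rw [List.range_succ_eq_map, List.map_cons, List.map_map]
  congr 1
  · simp
  · refine List.map_congr_left fun t _ => ?_
    simp only [Function.comp_apply, Nat.succ_eq_add_one]
    congr 1
    push_cast
    ring

theorem A_snoc (x : ℤ) (n : ℕ) : A u x (n + 1) = A u x n ++ [g u (x + n)] := by
  unfold A
  rw [List.range_succ, List.map_append, List.map_cons, List.map_nil]

theorem A_append (x : ℤ) (n k : ℕ) : A u x (n + k) = A u x n ++ A u (x + n) k := by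
  induction k with
  | zero => simp
  | succ k ih =>
    rw [← add_assoc, A_snoc, ih, A_snoc, List.append_assoc]
    congr 3
    push_cast
    ring_nf

theorem A_getD (x : ℤ) (n k : ℕ) (hk : k < n) : (A u x n).getD k default = g u (x + k) := by
  rw [List.getD_eq_getElem _ _ (by simpa using hk)]
  simp [A]

theorem A_self : A u 0 u.length = u := by
  apply List.ext_getElem
  · simp
  · intro k h1 h2
    simp only [A, List.getElem_map, List.getElem_range]
    unfold g
    have h3 : ((0 : ℤ) + (k : ℤ)) % (u.length : ℤ) = k := by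
      rw [zero_add]
      exact Int.emod_eq_of_lt (by omega) (by omega)
    rw [h3, Int.toNat_natCast, List.getD_eq_getElem _ _ h2]

theorem A_pow (p : ℕ) : (List.replicate p u).flatten = A u 0 (p * u.length) := by
  induction p with
  | zero => simp
  | succ p ih =>
    rw [List.replicate_succ, List.flatten_cons, ih, Nat.succ_mul, Nat.add_comm, A_append, A_self]
    congr 1
    have := A_mul u 0 1 (p * u.length)
    rw [one_mul] at this
    exact this.symm

theorem A_take (x : ℤ) (n k : ℕ) (hk : k ≤ n) : (A u x n).take k = A u x k := by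
  obtain ⟨l, rfl⟩ := Nat.exists_eq_add_of_le hk
  rw [A_append, List.take_left' (by simp)]

theorem A_drop (x : ℤ) (n k : ℕ) (hk : k ≤ n) : (A u x n).drop k = A u (x + k) (n - k) := by
  obtain ⟨l, rfl⟩ := Nat.exists_eq_add_of_le hk
  rw [A_append, List.drop_left' (by simp)]
  congr 1
  omega

omit [Inhabited D] in
theorem rot {X : List D → R} (hX : ∀ a u, X (a :: u) = X (u ++ [a])) (u v : List D) :
    X (u ++ v) = X (v ++ u) := by
  induction u generalizing v with
  | nil => simp
  | cons a u ih =>
    rw [List.cons_append, hX, List.append_assoc, ih, List.append_assoc, List.singleton_append]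

end

section

variable {D R : Type*} [Inhabited D] [CommRing R] (u : List D) (p : ℕ) (Y Z : List D → R)

/-- the function of two positions -/
def f (x y : ℤ) : R :=
  if (y - x) % ((p : ℤ) * u.length) = 0 then 0 else
    Y (A u x ((y - x) % ((p : ℤ) * u.length)).toNat) *
      Z (A u y ((x - y) % ((p : ℤ) * u.length)).toNat) -
    Z (A u x ((y - x) % ((p : ℤ) * u.length)).toNat) *
      Y (A u y ((x - y) % ((p : ℤ) * u.length)).toNat)

theorem emod_neg' (N z : ℤ) (hN : 0 < N) (hz : z % N ≠ 0) : (-z) % N = N - z % N := by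
  have h1 := Int.emod_nonneg z hN.ne'
  have h2 := Int.emod_lt_of_pos z hN
  have h3 : (-z) % N = (N - z % N) % N := by
    rw [Int.emod_emod_of_dvd (m := N) (k := N) _ dvd_rfl |>.symm]
    have h4 : N - z % N = -z + (z / N + 1) * N := by
      have := Int.emod_add_mul_ediv z N
      linarith
    rw [h4, Int.add_mul_emod_self_right]
    exact Int.emod_emod_of_dvd _ dvd_rfl
  rw [h3]
  exact Int.emod_eq_of_lt (by omega) (by omega)

theorem f_left (x y : ℤ) : f u p Y Z (x + p * u.length) y = f u p Y Z x y := by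
  unfold f
  have h1 : (y - (x + p * u.length)) % ((p : ℤ) * u.length) = (y - x) % ((p : ℤ) * u.length) := by
    rw [show y - (x + p * u.length) = (y - x) + (-1) * ((p : ℤ) * u.length) by ring,
      Int.add_mul_emod_self_right]
  have h2 : ((x + p * u.length) - y) % ((p : ℤ) * u.length) =
      (x - y) % ((p : ℤ) * u.length) := by
    rw [show (x + p * u.length) - y = (x - y) + 1 * ((p : ℤ) * u.length) by ring,
      Int.add_mul_emod_self_right]
  rw [h1, h2, A_mul]

theorem f_right (x y : ℤ) : f u p Y Z x (y + p * u.length) = f u p Y Z x y := by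
  unfold f
  have h1 : (x - (y + p * u.length)) % ((p : ℤ) * u.length) = (x - y) % ((p : ℤ) * u.length) := by
    rw [show x - (y + p * u.length) = (x - y) + (-1) * ((p : ℤ) * u.length) by ring,
      Int.add_mul_emod_self_right]
  have h2 : ((y + p * u.length) - x) % ((p : ℤ) * u.length) =
      (y - x) % ((p : ℤ) * u.length) := by
    rw [show (y + p * u.length) - x = (y - x) + 1 * ((p : ℤ) * u.length) by ring,
      Int.add_mul_emod_self_right]
  rw [h1, h2, A_mul]

theorem f_shift (x y : ℤ) : f u p Y Z (x + u.length) (y + u.length) = f u p Y Z x y := by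
  unfold f
  have h3 : ∀ x n, A u (x + u.length) n = A u x n := fun x n => by
    have := A_mul u x 1 n
    rwa [one_mul] at this
  rw [h3, h3, show y + (u.length : ℤ) - (x + u.length) = y - x by ring,
    show x + (u.length : ℤ) - (y + u.length) = x - y by ring]

theorem f_self (x : ℤ) : f u p Y Z x x = 0 := by
  unfold f
  rw [sub_self, Int.zero_emod, if_pos rfl]

theorem f_anti (x y : ℤ) : f u p Y Z y x = -f u p Y Z x y := by
  unfold f
  have h : (x - y) % ((p : ℤ) * u.length) = 0 ↔ (y - x) % ((p : ℤ) * u.length) = 0 := by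
    rw [← Int.dvd_iff_emod_eq_zero, ← Int.dvd_iff_emod_eq_zero, ← neg_sub, dvd_neg]
  by_cases h1 : (y - x) % ((p : ℤ) * u.length) = 0
  · rw [if_pos h1, if_pos (h.2 h1), neg_zero]
  · rw [if_neg h1, if_neg (fun h2 => h1 (h.1 h2))]
    ring

omit [CommRing R] in
theorem Y_shift {X : List D → R} (hX : ∀ a u, X (a :: u) = X (u ++ [a])) (x : ℤ) (n : ℕ)
    (h : g u (x + n) = g u x) : X (A u x n) = X (A u (x + 1) n) := by
  cases n with
  | zero => simp
  | succ n =>
    rw [A_cons, hX, A_snoc, ← h]
    congr 4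
    push_cast
    ring

theorem g_of_emod (hN : 0 < (p : ℤ) * u.length) (x y : ℤ) :
    g u (x + (((y - x) % ((p : ℤ) * u.length)).toNat : ℤ)) = g u y := by
  rw [Int.toNat_of_nonneg (Int.emod_nonneg _ hN.ne')]
  have h1 := Int.emod_add_mul_ediv (y - x) ((p : ℤ) * u.length)
  have h2 : x + (y - x) % ((p : ℤ) * u.length) =
      y + (-((y - x) / ((p : ℤ) * u.length)) * p) * u.length := by
    linarith
  rw [h2, g_mul]

theorem f_step {Y Z : List D → R} (hN : 0 < (p : ℤ) * u.length)
    (hY : ∀ a u, Y (a :: u) = Y (u ++ [a])) (hZ : ∀ a u, Z (a :: u) = Z (u ++ [a])) (x y : ℤ)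
    (h : g u x = g u y) : f u p Y Z x y = f u p Y Z (x + 1) (y + 1) := by
  unfold f
  rw [show y + 1 - (x + 1) = y - x by ring, show x + 1 - (y + 1) = x - y by ring]
  have h1 : g u (x + (((y - x) % ((p : ℤ) * u.length)).toNat : ℤ)) = g u x := by
    rw [g_of_emod u p hN, h]
  have h2 : g u (y + (((x - y) % ((p : ℤ) * u.length)).toNat : ℤ)) = g u y := by
    rw [g_of_emod u p hN, h]
  rw [Y_shift u hY x _ h1, Y_shift u hZ x _ h1, Y_shift u hY y _ h2, Y_shift u hZ y _ h2]

theorem f_sum (hm : 0 < u.length) (k : ℤ) :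
    ∑ c ∈ range p, f u p Y Z k (k + c * u.length) = 0 := by
  have hA : ∀ (c : ℤ) (n : ℕ), A u (k + c * u.length) n = A u k n := fun c n => A_mul u k c n
  cases p with
  | zero => simp
  | succ q =>
    rw [Finset.sum_range_succ']
    have h0 : f u (q + 1) Y Z k (k + ((0 : ℕ) : ℤ) * u.length) = 0 := by
      rw [Nat.cast_zero, zero_mul, add_zero, f_self]
    rw [h0, add_zero]
    have h1 : ∀ c ∈ range q, f u (q + 1) Y Z k (k + ((c + 1 : ℕ) : ℤ) * u.length) =
        Y (A u k ((c + 1) * u.length)) * Z (A u k ((q - c) * u.length)) -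
        Z (A u k ((c + 1) * u.length)) * Y (A u k ((q - c) * u.length)) := by
      intro c hc
      have hc := Finset.mem_range.1 hc
      have hlt : (c + 1) * u.length < (q + 1) * u.length :=
        Nat.mul_lt_mul_of_pos_right (by omega) hm
      have hpos : 0 < (c + 1) * u.length := Nat.mul_pos (by omega) hm
      have e1 : (k + ((c + 1 : ℕ) : ℤ) * u.length - k) % (((q + 1 : ℕ) : ℤ) * u.length) =
          (((c + 1) * u.length : ℕ) : ℤ) := by
        rw [add_sub_cancel_left, ← Nat.cast_mul, ← Nat.cast_mul]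
        exact Int.emod_eq_of_lt (by positivity) (by exact_mod_cast hlt)
      have hNN : (0 : ℤ) < ((q + 1 : ℕ) : ℤ) * u.length := by positivity
      have e2 : (k - (k + ((c + 1 : ℕ) : ℤ) * u.length)) % (((q + 1 : ℕ) : ℤ) * u.length) =
          (((q - c) * u.length : ℕ) : ℤ) := by
        have e3 : k - (k + ((c + 1 : ℕ) : ℤ) * u.length) =
            -(k + ((c + 1 : ℕ) : ℤ) * u.length - k) := by ring
        rw [e3, emod_neg' _ _ hNN (by rw [e1]; exact_mod_cast hpos.ne'), e1]
        have e4 : q - c + (c + 1) = q + 1 := by omega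
        have e5 : (q - c) * u.length + (c + 1) * u.length = (q + 1) * u.length := by
          rw [← Nat.add_mul, e4]
        have e6 : (((q - c) * u.length : ℕ) : ℤ) + (((c + 1) * u.length : ℕ) : ℤ) =
            (((q + 1) * u.length : ℕ) : ℤ) := by
          exact_mod_cast e5
        rw [Nat.cast_mul (q + 1)] at e6
        linarith
      unfold f
      rw [e1, e2, if_neg (by exact_mod_cast hpos.ne'), Int.toNat_natCast, Int.toNat_natCast, hA]
    rw [Finset.sum_congr rfl h1, Finset.sum_sub_distrib, sub_eq_zero]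
    rw [← Finset.sum_range_reflect]
    refine Finset.sum_congr rfl fun c hc => ?_
    have hc := Finset.mem_range.1 hc
    have e1 : q - 1 - c + 1 = q - c := by omega
    have e2 : q - (q - 1 - c) = c + 1 := by omega
    rw [e1, e2, mul_comm]

theorem lk_self {Λ : Type*} [LinearOrder Λ] (a : Λ × Λ) : lk a a = 0 := by
  unfold lk
  by_cases h : a.2 ≤ a.1
  · rw [if_pos le_rfl, if_pos h, if_neg (not_lt.2 h), if_neg (lt_irrefl _)]
    rfl
  · rw [if_pos le_rfl, if_neg h, if_pos (not_le.1 h), if_neg (lt_irrefl _)]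
    rfl

theorem le_le' {Λ : Type*} [LinearOrder Λ] (x y : Λ) : (if x ≤ y then (1 : ℤ) else 0) +
    (if y ≤ x then 1 else 0) = 1 + if x = y then 1 else 0 := by
  rcases lt_trichotomy x y with h | h | h
  · rw [if_pos h.le, if_neg (not_le.2 h), if_neg h.ne]
  · rw [if_pos h.le, if_pos h.ge, if_pos h]
  · rw [if_neg (not_le.2 h), if_pos h.le, if_neg h.ne']
    rfl

theorem le_lt' {Λ : Type*} [LinearOrder Λ] (x y : Λ) : (if x ≤ y then (1 : ℤ) else 0) +
    (if y < x then 1 else 0) = 1 := by
  rcases le_or_gt x y with h | h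
  · rw [if_pos h, if_neg (not_lt.2 h)]
    rfl
  · rw [if_neg (not_le.2 h), if_pos h]
    rfl

theorem lt_lt' {Λ : Type*} [LinearOrder Λ] (x y : Λ) : (if x < y then (1 : ℤ) else 0) +
    (if y < x then 1 else 0) = 1 - if x = y then 1 else 0 := by
  rcases lt_trichotomy x y with h | h | h
  · rw [if_pos h, if_neg h.not_gt, if_neg h.ne]
    rfl
  · subst h
    simp
  · rw [if_neg h.not_gt, if_pos h, if_neg h.ne']
    rfl

theorem lk_add {Λ : Type*} [LinearOrder Λ] (a b : Λ × Λ) :
    lk a b + lk b a = (if a.2 = b.2 then 1 else 0) - (if a.1 = b.1 then 1 else 0) := by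
  unfold lk
  have h1 := le_le' a.2 b.2
  have h2 := le_lt' a.2 b.1
  have h3 := le_lt' b.2 a.1
  have h4 := lt_lt' a.1 b.1
  linarith

theorem lkb_eq {Λ : Type*} [LinearOrder Λ] (a b : Λ × Λ) :
    lkb a b = lk a b + (if a.1 = b.1 then 1 else 0) := by
  unfold lkb lk
  have h : (if a.1 ≤ b.1 then (1 : ℤ) else 0) = (if a.1 < b.1 then 1 else 0) +
      if a.1 = b.1 then 1 else 0 := by
    rcases lt_trichotomy a.1 b.1 with h | h | h
    · rw [if_pos h.le, if_pos h, if_neg h.ne]
      rfl
    · rw [if_pos h.le, if_neg h.not_lt, if_pos h]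
      rfl
    · rw [if_neg (not_le.2 h), if_neg h.not_gt, if_neg h.ne']
      rfl
  rw [h]
  ring

/-- the passes -/
def P {Λ : Type*} (i o : D → Λ) (x : ℤ) : Λ × Λ := (i (g u (x - 1)), o (g u x))

theorem P_len {Λ : Type*} (i o : D → Λ) (x : ℤ) : P u i o (x + u.length) = P u i o x := by
  unfold P
  rw [show x + (u.length : ℤ) - 1 = (x - 1) + u.length by ring, g_len, g_len]

theorem pass_pos {Λ : Type*} (i o : D → Λ) (N k : ℕ) (h0 : 0 < k) (hk : k < N) :
    pass i o (A u 0 N) k = P u i o k := by
  unfold pass P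
  rw [if_neg h0.ne', A_getD u 0 N k hk, A_getD u 0 N (k - 1) (by omega), zero_add, zero_add,
    Nat.cast_sub (by omega : 1 ≤ k), Nat.cast_one]

theorem pass_zero {Λ : Type*} (i o : D → Λ) (q : ℕ) (hq : 0 < q * u.length) :
    pass i o (A u 0 (q * u.length)) 0 = P u i o 0 := by
  unfold pass P
  rw [if_pos rfl, A_getD u 0 _ 0 hq, A_length, A_getD u 0 _ _ (by omega), Nat.cast_zero, add_zero,
    zero_add, Nat.cast_sub (by omega : 1 ≤ q * u.length), Nat.cast_one]
  congr 2
  rw [show (((q * u.length : ℕ) : ℤ)) - 1 = (0 - 1) + (q : ℤ) * u.length by push_cast; ring, g_mul]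

/-- the summand of a cut -/
theorem cut_eq {Y Z : List D → R} (hY : ∀ a u, Y (a :: u) = Y (u ++ [a]))
    (hZ : ∀ a u, Z (a :: u) = Z (u ++ [a])) (j k : ℕ) (hjk : j < k) (hk : k < p * u.length) :
    Y (leaf (A u 0 (p * u.length)) j k) * Z (rest (A u 0 (p * u.length)) j k) -
      Z (leaf (A u 0 (p * u.length)) j k) * Y (rest (A u 0 (p * u.length)) j k) =
      f u p Y Z j k := by
  have hleaf : leaf (A u 0 (p * u.length)) j k = A u j (k - j) := by
    unfold leaf
    rw [A_take u 0 _ k hk.le, A_drop u 0 k j hjk.le, zero_add]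
  have hrest : ∀ X : List D → R, (∀ a u, X (a :: u) = X (u ++ [a])) →
      X (rest (A u 0 (p * u.length)) j k) = X (A u k (p * u.length - (k - j))) := by
    intro X hX
    unfold rest
    rw [A_take u 0 _ j (by omega), A_drop u 0 _ k hk.le, rot hX, zero_add,
      show p * u.length - (k - j) = (p * u.length - k) + j by omega, A_append]
    congr 2
    have h1 : (k : ℤ) + ((p * u.length - k : ℕ) : ℤ) = 0 + (p : ℤ) * u.length := by
      rw [Nat.cast_sub hk.le]
      push_cast
      ring
    rw [h1, A_mul]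
  rw [hleaf, hrest Y hY, hrest Z hZ]
  have hN : (0 : ℤ) < (p : ℤ) * u.length := by
    have : 0 < p * u.length := by omega
    exact_mod_cast this
  have e1 : ((k : ℤ) - j) % ((p : ℤ) * u.length) = ((k - j : ℕ) : ℤ) := by
    rw [← Nat.cast_sub hjk.le, ← Nat.cast_mul]
    exact Int.emod_eq_of_lt (by positivity) (by exact_mod_cast (by omega : k - j < p * u.length))
  have hne : ((k - j : ℕ) : ℤ) ≠ 0 := by
    exact_mod_cast (by omega : k - j ≠ 0)
  have e2 : ((j : ℤ) - k) % ((p : ℤ) * u.length) = ((p * u.length - (k - j) : ℕ) : ℤ) := by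
    rw [show (j : ℤ) - k = -((k : ℤ) - j) by ring, emod_neg' _ _ hN (by rw [e1]; exact hne), e1,
      Nat.cast_sub (by omega : k - j ≤ p * u.length), Nat.cast_mul]
  unfold f
  rw [e1, e2, if_neg hne, Int.toNat_natCast, Int.toNat_natCast]

end

end H798

variable {D Λ R : Type*} [LinearOrder Λ] [CommRing R] [Inhabited D]

theorem br_pow_zero (i o : D → Λ) (hi : Function.Injective i) (ho : Function.Injective o)
    (p : ℕ) [Fact p.Prime] [CharP R p]
    (hsum : ∀ (m : ℕ), 0 < m → ∀ f c e : ℤ → ℤ → R,
      (∀ i j, f (i + p * m) j = f i j) → (∀ i j, f i (j + p * m) = f i j) →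
      (∀ i j, f (i + m) (j + m) = f i j) → (∀ i j, f j i = - f i j) → (∀ i, f i i = 0) →
      (∀ i j, c (i + m) j = c i j) → (∀ i j, c i (j + m) = c i j) → (∀ i, c i i = 0) →
      (∀ i j, c i j + c j i = e i j - e (i - 1) (j - 1)) →
      (∀ i j, e (i + m) j = e i j) → (∀ i j, e i (j + m) = e i j) →
      (∀ i j, e i j = e j i) → (∀ i j, e i j * f i j = e i j * f (i + 1) (j + 1)) →
      (∀ k : ℤ, ∑ c ∈ range p, f k (k + c * m) = 0) →
      ∑ j ∈ range (p * m), ∑ i ∈ range j, c i j * f i j
        + ∑ j ∈ range (p * m - 1), e (-1) j * f 0 (j + 1) = 0)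
    (Y Z : List D → R) (hY : ∀ a u, Y (a :: u) = Y (u ++ [a]))
    (hZ : ∀ a u, Z (a :: u) = Z (u ++ [a])) (u : List D) :
    br i o Y Z (List.replicate p u).flatten = 0 := by
  classical
  rw [H798.A_pow]
  rcases Nat.eq_zero_or_pos u.length with hm | hm
  · unfold br L
    rw [hm, mul_zero, H798.A_length]
    simp
  have hp : 0 < p := (Fact.out : p.Prime).pos
  have hNN : 0 < p * u.length := Nat.mul_pos hp hm
  have hN : (0 : ℤ) < (p : ℤ) * u.length := by exact_mod_cast hNN
  set c : ℤ → ℤ → R := fun x y => ((lk (H798.P u i o x) (H798.P u i o y) : ℤ) : R) with hc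
  set e : ℤ → ℤ → R := fun x y => if H798.g u x = H798.g u y then 1 else 0 with he
  have h := hsum u.length hm (H798.f u p Y Z) c e (H798.f_left u p Y Z) (H798.f_right u p Y Z)
    (H798.f_shift u p Y Z) (H798.f_anti u p Y Z) (H798.f_self u p Y Z)
    (fun x y => by simp only [hc, H798.P_len]) (fun x y => by simp only [hc, H798.P_len])
    (fun x => by simp only [hc, H798.lk_self, Int.cast_zero])
    (fun x y => by
      simp only [hc, he]
      rw [← Int.cast_add, H798.lk_add]
      simp only [H798.P, ho.eq_iff, hi.eq_iff]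
      push_cast
      rfl)
    (fun x y => by simp only [he, H798.g_len]) (fun x y => by simp only [he, H798.g_len])
    (fun x y => by simp only [he, eq_comm]) (fun x y => by
      simp only [he]
      by_cases hxy : H798.g u x = H798.g u y
      · rw [H798.f_step u p hN hY hZ x y hxy]
      · rw [if_neg hxy, zero_mul, zero_mul])
    (fun k => H798.f_sum u p Y Z hm k)
  have hbr : br i o Y Z (H798.A u 0 (p * u.length)) =
      ∑ k ∈ range (p * u.length), ∑ j ∈ range k,
        (c j k + if j = 0 then e (-1) ((k : ℤ) - 1) else 0) * H798.f u p Y Z j k := by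
    unfold br L
    rw [H798.A_length, ← Finset.sum_sub_distrib]
    refine Finset.sum_congr rfl fun k hk => ?_
    rw [← Finset.sum_sub_distrib]
    refine Finset.sum_congr rfl fun j hj => ?_
    have hk := Finset.mem_range.1 hk
    have hj := Finset.mem_range.1 hj
    rw [← H798.cut_eq u p hY hZ j k hj hk]
    have hcf : (cf i o (H798.A u 0 (p * u.length)) j k : R) =
        c j k + if j = 0 then e (-1) ((k : ℤ) - 1) else 0 := by
      unfold cf
      by_cases h0 : j = 0
      · subst h0
        rw [if_pos rfl, if_pos rfl, H798.pass_zero u i o p hNN,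
          H798.pass_pos u i o _ k hj hk, H798.lkb_eq, Int.cast_add]
        simp only [hc, he, Nat.cast_zero, H798.P, hi.eq_iff, zero_sub]
        push_cast
        rfl
      · rw [if_neg h0, if_neg h0, H798.pass_pos u i o _ k (by omega) hk,
          H798.pass_pos u i o _ j (by omega) (by omega), add_zero]
    rw [hcf]
    ring
  rw [hbr]
  refine Eq.trans ?_ h
  have h2 : ∑ k ∈ range (p * u.length), ∑ j ∈ range k,
        (c j k + if j = 0 then e (-1) ((k : ℤ) - 1) else 0) * H798.f u p Y Z j k =
      ∑ k ∈ range (p * u.length), ∑ j ∈ range k, c j k * H798.f u p Y Z j k +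
      ∑ k ∈ range (p * u.length), ∑ j ∈ range k,
        (if j = 0 then e (-1) ((k : ℤ) - 1) else 0) * H798.f u p Y Z j k := by
    rw [← Finset.sum_add_distrib]
    refine Finset.sum_congr rfl fun k _ => ?_
    rw [← Finset.sum_add_distrib]
    exact Finset.sum_congr rfl fun j _ => add_mul _ _ _
  rw [h2]
  congr 1
  obtain ⟨N, hNe⟩ : ∃ N, p * u.length = N + 1 := ⟨p * u.length - 1, by omega⟩
  rw [hNe, Finset.sum_range_succ', Finset.range_zero, Finset.sum_empty, add_zero,
    Nat.add_sub_cancel]
  refine Finset.sum_congr rfl fun k _ => ?_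
  rw [Finset.sum_range_succ', Finset.sum_eq_zero, zero_add, if_pos rfl]
  · congr 2
    push_cast
    ring
  · intro j _
    rw [if_neg (Nat.succ_ne_zero j), zero_mul]

end Pool.Agent.TH317.CC
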